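import Mathlib.Data.ZMod.Basic
import Mathlib.Data.Fintype.Pi
import Mathlib.Data.Fintype.Prod
import Mathlib.Data.Fintype.Powerset
import Mathlib.Data.Finite.Prod
import Mathlib.Tactic

/-!
# MP_b3a441_al, Q1: every Steiner loop is an image of one in which associativity propagates

Let `F` be a Steiner loop. Let `A` be the elementary abelian `2`-group of the functions from the
subsets of `F` to `ℤ/2`, and let `τ(a, b) ∈ A` be the indicator function of (the one-element set
consisting of) the line `{a, b, ab}` if `a ≠ b` are not the identity, and `0` otherwise. Then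
`X = F × A` with `(a, x)(b, y) = (ab, x + y + τ(a, b))` is a Steiner loop, which is finite if `F`
is finite. Three elements of `X` over `a, b, c` generate an elementary abelian `2`-group if
`a, b, c` are in a subloop generated by two elements of `F`. Otherwise they do not associate: this
is clear if `a, b, c` do not associate, and if they do, the associator is the sum of the indicator
functions of the four different lines `{a, b, ab}`, `{b, c, bc}`, `{ab, c, abc}`, `{a, bc, abc}`.
-/

set_option autoImplicit false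

namespace Pool.Agent.Results.MP_b3a441_al.PropagatingCover

universe u

/-- `X` is a Steiner loop: `1` is a two-sided identity, all left and right translations are
bijections, `x y = y x` and `x (x y) = y`. -/
structure IsSteinerLoop (X : Type u) [Mul X] [One X] : Prop where
  one_mul : ∀ x : X, 1 * x = x
  mul_one : ∀ x : X, x * 1 = x
  left_bijective : ∀ a : X, Function.Bijective (fun x : X => a * x)
  right_bijective : ∀ a : X, Function.Bijective (fun x : X => x * a)
  mul_comm : ∀ x y : X, x * y = y * x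
  mul_mul : ∀ x y : X, x * (x * y) = y

/-- The subloop generated by `x, y, z` (in a Steiner loop): the smallest subset which contains
`x, y, z` and `1` and is closed under multiplication. -/
inductive Generated {X : Type u} [Mul X] [One X] (x y z : X) : X → Prop
  | one : Generated x y z 1
  | fst : Generated x y z x
  | snd : Generated x y z y
  | trd : Generated x y z z
  | mul (a b : X) : Generated x y z a → Generated x y z b → Generated x y z (a * b)

/-- Associativity propagates in `X`: if `x (y z) = (x y) z`, then the subloop generated by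
`x, y, z` is associative. -/
def AssocPropagates (X : Type u) [Mul X] [One X] : Prop :=
  ∀ x y z : X, x * (y * z) = (x * y) * z →
    ∀ a b c : X, Generated x y z a → Generated x y z b → Generated x y z c →
      a * (b * c) = (a * b) * c

/-! ### Steiner loops -/

section Steiner

variable {F : Type u} [Mul F] [One F]

theorem sq (h : IsSteinerLoop F) (x : F) : x * x = 1 := by
  have h1 := h.mul_mul x 1
  rwa [h.mul_one] at h1

theorem eq_of_mul_eq_one (h : IsSteinerLoop F) {x y : F} (hxy : x * y = 1) : x = y := by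
  have h1 := h.mul_mul x y
  rw [hxy, h.mul_one] at h1
  exact h1

theorem mul_eq_iff (h : IsSteinerLoop F) {x y z : F} : x * y = z ↔ y = x * z := by
  constructor
  · rintro rfl
    rw [h.mul_mul]
  · rintro rfl
    rw [h.mul_mul]

end Steiner

/-! ### The extension -/

/-- The underlying set of the extension. -/
def Ext (F : Type u) : Type u := F × (Set F → ZMod 2)

section Extension

variable {F : Type u} [Mul F] [One F]

open Classical in
/-- The cocycle. -/
noncomputable def tau (a b : F) : Set F → ZMod 2 :=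
  if a ≠ 1 ∧ b ≠ 1 ∧ a ≠ b then Pi.single ({a, b, a * b} : Set F) 1 else 0

noncomputable instance : Mul (Ext F) := ⟨fun x y => (x.1 * y.1, x.2 + y.2 + tau x.1 y.1)⟩
noncomputable instance : One (Ext F) := ⟨(1, 0)⟩

theorem ext_mul (x y : Ext F) : x * y = (x.1 * y.1, x.2 + y.2 + tau x.1 y.1) := rfl
omit [Mul F] in
theorem ext_one : (1 : Ext F) = (1, 0) := rfl

theorem tau_one_left (a : F) : tau 1 a = 0 := by simp [tau]
theorem tau_one_right (a : F) : tau a 1 = 0 := by simp [tau]
theorem tau_self (a : F) : tau a a = 0 := by simp [tau]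

theorem tau_comm (h : IsSteinerLoop F) (a b : F) : tau a b = tau b a := by
  unfold tau
  have h1 : ({a, b, a * b} : Set F) = {b, a, b * a} := by
    rw [h.mul_comm a b]
    exact Set.insert_comm a b _
  rw [h1]
  by_cases hc : a ≠ 1 ∧ b ≠ 1 ∧ a ≠ b
  · rw [if_pos hc, if_pos ⟨hc.2.1, hc.1, hc.2.2.symm⟩]
  · rw [if_neg hc, if_neg (fun hc' => hc ⟨hc'.2.1, hc'.1, hc'.2.2.symm⟩)]

theorem tau_mul (h : IsSteinerLoop F) (a b : F) : tau a (a * b) = tau a b := by
  unfold tau
  have h1 : ({a, a * b, a * (a * b)} : Set F) = {a, b, a * b} := by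
    rw [h.mul_mul]
    congr 1
    exact Set.pair_comm _ _
  rw [h1]
  by_cases hc : a ≠ 1 ∧ b ≠ 1 ∧ a ≠ b
  · have h2 : a ≠ 1 ∧ a * b ≠ 1 ∧ a ≠ a * b := by
      refine ⟨hc.1, fun h3 => hc.2.2 (eq_of_mul_eq_one h h3), fun h3 => ?_⟩
      have h4 := (mul_eq_iff h).1 h3.symm
      rw [sq h] at h4
      exact hc.2.1 h4
    rw [if_pos hc, if_pos h2]
  · rw [if_neg hc, if_neg]
    rintro ⟨h2, h3, h4⟩
    apply hc
    refine ⟨h2, fun h5 => ?_, fun h5 => ?_⟩
    · rw [h5, h.mul_one] at h4
      exact h4 rfl
    · rw [← h5, sq h] at h3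
      exact h3 rfl

omit [Mul F] [One F] in
theorem add_self (x : Set F → ZMod 2) : x + x = 0 := by
  funext s
  exact CharTwo.add_self_eq_zero (x s)

theorem isSteinerLoop_ext (h : IsSteinerLoop F) : IsSteinerLoop (Ext F) := by
  have hone : ∀ x : Ext F, 1 * x = x := by
    intro x
    rw [ext_mul, ext_one]
    refine Prod.ext ?_ ?_
    · exact h.one_mul _
    · show 0 + x.2 + tau 1 x.1 = x.2
      rw [tau_one_left, zero_add, add_zero]
  have hcomm : ∀ x y : Ext F, x * y = y * x := by
    intro x y
    rw [ext_mul, ext_mul]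
    refine Prod.ext ?_ ?_
    · exact h.mul_comm _ _
    · show x.2 + y.2 + tau x.1 y.1 = y.2 + x.2 + tau y.1 x.1
      rw [tau_comm h x.1 y.1, add_comm x.2 y.2]
  have hmm : ∀ x y : Ext F, x * (x * y) = y := by
    intro x y
    rw [ext_mul, ext_mul]
    refine Prod.ext ?_ ?_
    · exact h.mul_mul _ _
    · show x.2 + (x.2 + y.2 + tau x.1 y.1) + tau x.1 (x.1 * y.1) = y.2
      rw [tau_mul h]
      have e : x.2 + (x.2 + y.2 + tau x.1 y.1) + tau x.1 y.1 =
          (x.2 + x.2) + y.2 + (tau x.1 y.1 + tau x.1 y.1) := by abel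
      rw [e, add_self, add_self, zero_add, add_zero]
  have hleft : ∀ a : Ext F, Function.Bijective (fun x : Ext F => a * x) := fun a =>
    Function.Involutive.bijective (fun x => hmm a x)
  refine ⟨hone, fun x => by rw [hcomm, hone], hleft, ?_, hcomm, hmm⟩
  intro a
  have e : (fun x : Ext F => x * a) = fun x => a * x := by
    funext x
    exact hcomm x a
  rw [e]
  exact hleft a

/-- the elements over a two-generated subloop associate -/
theorem assoc_of_pair {X : Type u} [Mul X] [One X] (h : IsSteinerLoop X) (u v : X) {a b c : X}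
    (ha : a = 1 ∨ a = u ∨ a = v ∨ a = u * v) (hb : b = 1 ∨ b = u ∨ b = v ∨ b = u * v)
    (hc : c = 1 ∨ c = u ∨ c = v ∨ c = u * v) : a * (b * c) = (a * b) * c := by
  have e1 : ∀ x y : X, y * (x * y) = x := by
    intro x y
    rw [h.mul_comm x y, h.mul_mul]
  have e2 : ∀ x y : X, (x * y) * x = y := by
    intro x y
    rw [h.mul_comm (x * y) x, h.mul_mul]
  have e3 : ∀ x y : X, (x * y) * y = x := by
    intro x y
    rw [h.mul_comm (x * y) y, e1]
  have e4 : v * u = u * v := h.mul_comm v u
  rcases ha with rfl | rfl | rfl | rfl <;> rcases hb with rfl | rfl | rfl | rfl <;>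
    rcases hc with rfl | rfl | rfl | rfl <;>
    simp only [h.one_mul, h.mul_one, sq h, h.mul_mul, e1, e2, e3, e4]

/-- the cocycle identity over a two-generated subloop -/
theorem tau_assoc (h : IsSteinerLoop F) (u v : F) {a b c : F}
    (ha : a = 1 ∨ a = u ∨ a = v ∨ a = u * v) (hb : b = 1 ∨ b = u ∨ b = v ∨ b = u * v)
    (hc : c = 1 ∨ c = u ∨ c = v ∨ c = u * v) :
    tau b c + tau a (b * c) = tau a b + tau (a * b) c := by
  have f1 : ∀ x y : F, y * (x * y) = x := by
    intro x y
    rw [h.mul_comm x y, h.mul_mul]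
  have f2 : ∀ x y : F, (x * y) * x = y := by
    intro x y
    rw [h.mul_comm (x * y) x, h.mul_mul]
  have f3 : ∀ x y : F, (x * y) * y = x := by
    intro x y
    rw [h.mul_comm (x * y) y, f1]
  have f4 : v * u = u * v := h.mul_comm v u
  have e0 : tau u (u * v) = tau u v := tau_mul h u v
  have e1 : tau (u * v) u = tau u v := by rw [tau_comm h, e0]
  have e2 : tau v (u * v) = tau u v := by rw [h.mul_comm u v, tau_mul h, tau_comm h]
  have e3 : tau (u * v) v = tau u v := by rw [tau_comm h, e2]
  have e4 : tau v u = tau u v := tau_comm h v u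
  rcases ha with rfl | rfl | rfl | rfl <;> rcases hb with rfl | rfl | rfl | rfl <;>
    rcases hc with rfl | rfl | rfl | rfl <;>
    simp only [h.one_mul, h.mul_one, sq h, h.mul_mul, f1, f2, f3, f4, tau_one_left, tau_one_right,
      tau_self, e0, e1, e2, e3, e4, add_self, add_zero, zero_add]

theorem mem_pair_mul (h : IsSteinerLoop F) (u v : F) {a b : F}
    (ha : a = 1 ∨ a = u ∨ a = v ∨ a = u * v) (hb : b = 1 ∨ b = u ∨ b = v ∨ b = u * v) :
    a * b = 1 ∨ a * b = u ∨ a * b = v ∨ a * b = u * v := by
  have f1 : ∀ x y : F, y * (x * y) = x := by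
    intro x y
    rw [h.mul_comm x y, h.mul_mul]
  have f2 : ∀ x y : F, (x * y) * x = y := by
    intro x y
    rw [h.mul_comm (x * y) x, h.mul_mul]
  have f3 : ∀ x y : F, (x * y) * y = x := by
    intro x y
    rw [h.mul_comm (x * y) y, f1]
  have f4 : v * u = u * v := h.mul_comm v u
  rcases ha with rfl | rfl | rfl | rfl <;> rcases hb with rfl | rfl | rfl | rfl <;>
    simp only [h.one_mul, h.mul_one, sq h, h.mul_mul, f1, f2, f3, f4, true_or, or_true]

/-- elements over a two-generated subloop of `F` associate -/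
theorem ext_assoc (h : IsSteinerLoop F) (u v : F) {a b c : Ext F}
    (ha : a.1 = 1 ∨ a.1 = u ∨ a.1 = v ∨ a.1 = u * v)
    (hb : b.1 = 1 ∨ b.1 = u ∨ b.1 = v ∨ b.1 = u * v)
    (hc : c.1 = 1 ∨ c.1 = u ∨ c.1 = v ∨ c.1 = u * v) : a * (b * c) = (a * b) * c := by
  rw [ext_mul, ext_mul, ext_mul, ext_mul]
  refine Prod.ext (assoc_of_pair h u v ha hb hc) ?_
  show a.2 + (b.2 + c.2 + tau b.1 c.1) + tau a.1 (b.1 * c.1) =
    a.2 + b.2 + tau a.1 b.1 + c.2 + tau (a.1 * b.1) c.1
  have h1 := tau_assoc h u v ha hb hc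
  calc a.2 + (b.2 + c.2 + tau b.1 c.1) + tau a.1 (b.1 * c.1)
      = a.2 + b.2 + c.2 + (tau b.1 c.1 + tau a.1 (b.1 * c.1)) := by abel
    _ = a.2 + b.2 + c.2 + (tau a.1 b.1 + tau (a.1 * b.1) c.1) := by rw [h1]
    _ = _ := by abel

/-- If three elements associate, they lie over a two-generated subloop. -/
theorem exists_pair (h : IsSteinerLoop F) {x y z : Ext F} (hxyz : x * (y * z) = (x * y) * z) :
    ∃ u v : F, (x.1 = 1 ∨ x.1 = u ∨ x.1 = v ∨ x.1 = u * v) ∧
      (y.1 = 1 ∨ y.1 = u ∨ y.1 = v ∨ y.1 = u * v) ∧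
      (z.1 = 1 ∨ z.1 = u ∨ z.1 = v ∨ z.1 = u * v) := by
  obtain ⟨a, x'⟩ := x
  obtain ⟨b, y'⟩ := y
  obtain ⟨c, z'⟩ := z
  show ∃ u v : F, (a = 1 ∨ a = u ∨ a = v ∨ a = u * v) ∧
      (b = 1 ∨ b = u ∨ b = v ∨ b = u * v) ∧ (c = 1 ∨ c = u ∨ c = v ∨ c = u * v)
  by_cases ha : a = 1
  · exact ⟨b, c, by tauto, by tauto, by tauto⟩
  by_cases hb : b = 1
  · exact ⟨a, c, by tauto, by tauto, by tauto⟩
  by_cases hc : c = 1
  · exact ⟨a, b, by tauto, by tauto, by tauto⟩
  by_cases hab : a = b
  · exact ⟨a, c, by tauto, by rw [← hab]; tauto, by tauto⟩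
  by_cases hbc : b = c
  · exact ⟨a, b, by tauto, by tauto, by rw [← hbc]; tauto⟩
  by_cases hac : a = c
  · exact ⟨a, b, by tauto, by tauto, by rw [← hac]; tauto⟩
  by_cases habc : c = a * b
  · exact ⟨a, b, by tauto, by tauto, by tauto⟩
  exfalso
  have h2 : x' + (y' + z' + tau b c) + tau a (b * c) = x' + y' + tau a b + z' + tau (a * b) c :=
    congrArg Prod.snd hxyz
  have h3 : tau b c + tau a (b * c) = tau a b + tau (a * b) c := by
    have e1 : x' + (y' + z' + tau b c) + tau a (b * c) =
      (x' + y' + z') + (tau b c + tau a (b * c)) := by abel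
    have e2 : x' + y' + tau a b + z' + tau (a * b) c =
      (x' + y' + z') + (tau a b + tau (a * b) c) := by abel
    rw [e1, e2] at h2
    exact add_left_cancel h2
  have h4 := congrFun h3 ({a, b, a * b} : Set F)
  have hab1 : a * b ≠ 1 := fun h5 => hab (eq_of_mul_eq_one h h5)
  have hbc1 : b * c ≠ 1 := fun h5 => hbc (eq_of_mul_eq_one h h5)
  have habc' : a * b ≠ c := fun h5 => habc h5.symm
  have habc'' : a ≠ b * c := by
    intro h5
    have h6 := (mul_eq_iff h).1 h5.symm
    rw [h.mul_comm] at h6
    exact habc h6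
  have hcL : c ∉ ({a, b, a * b} : Set F) := by
    simp only [Set.mem_insert_iff, Set.mem_singleton_iff, not_or]
    exact ⟨fun h5 => hac h5.symm, fun h5 => hbc h5.symm, habc⟩
  have hbcL : b * c ∉ ({a, b, a * b} : Set F) := by
    simp only [Set.mem_insert_iff, Set.mem_singleton_iff, not_or]
    refine ⟨fun h5 => habc'' h5.symm, fun h5 => ?_, fun h5 => ?_⟩
    · have h6 := (mul_eq_iff h).1 h5
      rw [sq h] at h6
      exact hc h6
    · have h6 := (mul_eq_iff h).1 h5
      rw [h.mul_comm a b, h.mul_mul] at h6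
      exact hac h6.symm
  have hsingle : ∀ (s t : Set F) [DecidableEq (Set F)] (w : F), w ∈ s → w ∉ t →
      (Pi.single s (1 : ZMod 2) : Set F → ZMod 2) t = 0 := by
    intro s t _ w hs ht
    apply Pi.single_eq_of_ne
    rintro rfl
    exact ht hs
  have t1 : tau b c ({a, b, a * b} : Set F) = 0 := by
    unfold tau
    rw [if_pos ⟨hb, hc, hbc⟩]
    exact hsingle _ _ c (by simp) hcL
  have t2 : tau a (b * c) ({a, b, a * b} : Set F) = 0 := by
    unfold tau
    rw [if_pos ⟨ha, hbc1, habc''⟩]
    exact hsingle _ _ (b * c) (by simp) hbcL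
  have t3 : tau (a * b) c ({a, b, a * b} : Set F) = 0 := by
    unfold tau
    rw [if_pos ⟨hab1, hc, habc'⟩]
    exact hsingle _ _ c (by simp) hcL
  have t4 : tau a b ({a, b, a * b} : Set F) = 1 := by
    unfold tau
    rw [if_pos ⟨ha, hb, hab⟩, Pi.single_eq_same]
  rw [Pi.add_apply, Pi.add_apply, t1, t2, t3, t4] at h4
  exact absurd h4 (by decide)

theorem assocPropagates_ext (h : IsSteinerLoop F) : AssocPropagates (Ext F) := by
  intro x y z hxyz
  obtain ⟨u, v, hx, hy, hz⟩ := exists_pair h hxyz
  have key : ∀ a : Ext F, Generated x y z a → (a.1 = 1 ∨ a.1 = u ∨ a.1 = v ∨ a.1 = u * v) := by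
    intro a ha
    induction ha with
    | one => exact Or.inl rfl
    | fst => exact hx
    | snd => exact hy
    | trd => exact hz
    | mul a b _ _ iha ihb => exact mem_pair_mul h u v iha ihb
  intro a b c ha hb hc
  exact ext_assoc h u v (key a ha) (key b hb) (key c hc)

end Extension

/-- **Every Steiner loop `F` is a homomorphic image of a Steiner loop `X` in which associativity
propagates; if `F` is finite, then `X` can be chosen to be finite.** -/
theorem result (F : Type u) [Mul F] [One F] (hF : IsSteinerLoop F) :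
    ∃ (X : Type u) (_ : Mul X) (_ : One X), IsSteinerLoop X ∧ AssocPropagates X ∧
      (Finite F → Finite X) ∧
      ∃ f : X → F, (∀ x y : X, f (x * y) = f x * f y) ∧ Function.Surjective f := by
  refine ⟨Ext F, inferInstance, inferInstance, isSteinerLoop_ext hF, assocPropagates_ext hF, ?_,
    Prod.fst, fun _ _ => rfl, fun a => ⟨(a, 0), rfl⟩⟩
  intro hfin
  have : Finite (Set F) := inferInstance
  exact (inferInstance : Finite (F × (Set F → ZMod 2)))

end Pool.Agent.Results.MP_b3a441_al.PropagatingCover
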